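import Mathlib

/-!
# The additivity number of `Split(Ω, Λ)` is at most the cofinality of the ultrafilter number

A set of reals of cardinality less than `𝔲` satisfies `Split(Ω, Λ)`, a base of a nonprincipal
ultrafilter on `ℕ`, as a subset of the Cantor set, does not. Decomposing a base of cardinality `𝔲`
into `cf 𝔲` pieces of cardinality less than `𝔲` gives `add(Split(Ω, Λ)) ≤ cf 𝔲`.
-/

set_option autoImplicit false

open Set Topology
open scoped Cardinal

namespace Pool.Agent.Results.MP_312f56_gt.AddLeCofU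

/-- `U` is an open cover of the set of reals `X` (with the subspace topology): its members are open
subsets of `X`, its union is `X`, and `X` is not a member. -/
def IsOpenCover (X : Set ℝ) (U : Set (Set X)) : Prop :=
  (∀ u ∈ U, IsOpen u) ∧ ⋃₀ U = univ ∧ univ ∉ U

/-- `Λ(X)`: the large open covers, every point belongs to infinitely many members. -/
def IsLargeCover (X : Set ℝ) (U : Set (Set X)) : Prop :=
  IsOpenCover X U ∧ ∀ x : X, {u | u ∈ U ∧ x ∈ u}.Infinite

/-- `Ω(X)`: the open `ω`-covers, every finite subset of `X` is contained in some member. -/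
def IsOmegaCover (X : Set ℝ) (U : Set (Set X)) : Prop :=
  IsOpenCover X U ∧ ∀ F : Set X, F.Finite → ∃ u ∈ U, F ⊆ u

/-- `X` satisfies `Split(Ω, Λ)`: every open `ω`-cover of `X` is the union of two disjoint
subfamilies, each of which contains a large open cover of `X`. -/
def SplitOmegaLambda (X : Set ℝ) : Prop :=
  ∀ U : Set (Set X), IsOmegaCover X U → ∃ V W : Set (Set X), V ∪ W = U ∧ Disjoint V W ∧
    (∃ V' ⊆ V, IsLargeCover X V') ∧ ∃ W' ⊆ W, IsLargeCover X W'

/-- `add(S)`, where `S` is the family of the sets of reals satisfying `Split(Ω, Λ)`: the least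
cardinality of a family `F ⊆ S` whose union is not in `S`. -/
noncomputable def addS : Cardinal.{0} :=
  sInf {κ | ∃ F : Set (Set ℝ), (∀ X ∈ F, SplitOmegaLambda X) ∧ ¬ SplitOmegaLambda (⋃₀ F) ∧
    #F = κ}

/-- `B` is a base of the ultrafilter `p`. -/
def IsBaseOf (B : Set (Set ℕ)) (p : Ultrafilter ℕ) : Prop :=
  (∀ b ∈ B, b ∈ p) ∧ ∀ A ∈ p, ∃ b ∈ B, b ⊆ A

/-- The ultrafilter number `𝔲`: the least cardinality of a base of a nonprincipal ultrafilter
on `ℕ`. -/
noncomputable def ultrafilterNumber : Cardinal.{0} :=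
  sInf {κ | ∃ (p : Ultrafilter ℕ) (B : Set (Set ℕ)), (∀ n : ℕ, p ≠ pure n) ∧ IsBaseOf B p ∧
    #B = κ}

theorem exists_base : ∃ (p : Ultrafilter ℕ) (B : Set (Set ℕ)), (∀ n : ℕ, p ≠ pure n) ∧
    IsBaseOf B p ∧ #B = ultrafilterNumber := by
  have h : {κ : Cardinal.{0} | ∃ (p : Ultrafilter ℕ) (B : Set (Set ℕ)), (∀ n : ℕ, p ≠ pure n) ∧
      IsBaseOf B p ∧ #B = κ}.Nonempty := by
    refine ⟨_, Filter.hyperfilter ℕ, {A | A ∈ Filter.hyperfilter ℕ}, ?_,
      ⟨fun b hb => hb, fun A hA => ⟨A, hA, subset_rfl⟩⟩, rfl⟩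
    intro n hn
    have h1 : ({n} : Set ℕ) ∈ Filter.hyperfilter ℕ := by
      rw [hn]
      exact Ultrafilter.mem_pure.2 rfl
    exact (Set.Finite.notMem_hyperfilter (Set.finite_singleton n)) h1
  exact csInf_mem h

theorem le_of_base {p : Ultrafilter ℕ} {B : Set (Set ℕ)} (hp : ∀ n : ℕ, p ≠ pure n)
    (hB : IsBaseOf B p) : ultrafilterNumber ≤ #B :=
  csInf_le' ⟨p, B, hp, hB, rfl⟩

theorem infinite_of_mem {p : Ultrafilter ℕ} (hp : ∀ n : ℕ, p ≠ pure n) {A : Set ℕ} (hA : A ∈ p) :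
    A.Infinite := by
  intro hf
  obtain ⟨n, -, hn⟩ := Ultrafilter.eq_pure_of_finite_mem hf hA
  exact hp n hn

theorem tail_mem {p : Ultrafilter ℕ} (hp : ∀ n : ℕ, p ≠ pure n) {A : Set ℕ} (hA : A ∈ p) (n : ℕ) :
    A \ Iio n ∈ p := by
  have h : (Iio n)ᶜ ∈ p := by
    rw [Ultrafilter.compl_mem_iff_notMem]
    intro h
    exact infinite_of_mem hp h (Set.finite_Iio n)
  exact Filter.inter_mem hA h

/-- `𝔲` is uncountable. -/
theorem aleph0_lt_ultrafilterNumber : ℵ₀ < ultrafilterNumber := by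
  obtain ⟨p, B, hp, hB, hBc⟩ := exists_base
  rw [← hBc]
  by_contra hcon
  have hc : B.Countable := by
    rw [← Set.countable_coe_iff, ← Cardinal.mk_le_aleph0_iff]
    exact not_lt.1 hcon
  have hne : B.Nonempty := by
    obtain ⟨b, hb, -⟩ := hB.2 univ Filter.univ_mem
    exact ⟨b, hb⟩
  obtain ⟨f, hf⟩ := hc.exists_eq_range hne
  have hfp : ∀ n, f n ∈ p := fun n => hB.1 _ (hf ▸ mem_range_self n)
  let C : ℕ → Set ℕ := fun n => ⋂ i ∈ Finset.range (n + 1), f i
  have hC : ∀ n, C n ∈ p := fun n => by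
    have : ⋂ i ∈ Finset.range (n + 1), f i ∈ (p : Filter ℕ) :=
      (Filter.biInter_finset_mem _).2 fun i _ => hfp i
    exact this
  have hCf : ∀ n i, i ≤ n → C n ⊆ f i := fun n i hi x hx => by
    have := Set.mem_iInter₂.1 hx i (Finset.mem_range.2 (Nat.lt_succ_of_le hi))
    exact this
  -- choose an increasing sequence `g n ∈ C n`
  have hstep : ∀ n m : ℕ, ∃ k, m < k ∧ k ∈ C n := fun n m => by
    obtain ⟨k, hk, hmk⟩ := (infinite_of_mem hp (hC n)).exists_gt m
    exact ⟨k, hmk, hk⟩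
  choose s hs1 hs2 using hstep
  let g : ℕ → ℕ := fun n => Nat.rec (s 0 0) (fun n r => s (n + 1) r) n
  have hg0 : ∀ n, g (n + 1) = s (n + 1) (g n) := fun n => rfl
  have hgC : ∀ n, g n ∈ C n := by
    intro n
    cases n with
    | zero => exact hs2 0 0
    | succ n => rw [hg0]; exact hs2 _ _
  have hgm : StrictMono g := strictMono_nat_of_lt_succ fun n => by rw [hg0]; exact hs1 _ _
  let A : Set ℕ := {k | ∃ n, k = g (2 * n)}
  have key : ∀ b ∈ B, (∃ k ∈ b, k ∈ A) ∧ ∃ k ∈ b, k ∉ A := by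
    intro b hb
    rw [hf] at hb
    obtain ⟨i, rfl⟩ := hb
    refine ⟨⟨g (2 * i), hCf (2 * i) i (by omega) (hgC _), i, rfl⟩,
      ⟨g (2 * i + 1), hCf (2 * i + 1) i (by omega) (hgC _), ?_⟩⟩
    rintro ⟨n, hn⟩
    have h7 : 2 * i + 1 = 2 * n := hgm.injective hn
    omega
  rcases Ultrafilter.mem_or_compl_mem p A with hA | hA
  · obtain ⟨b, hb, hbA⟩ := hB.2 A hA
    obtain ⟨-, k, hk, hkA⟩ := key b hb
    exact hkA (hbA hk)
  · obtain ⟨b, hb, hbA⟩ := hB.2 _ hA
    obtain ⟨⟨k, hk, hkA⟩, -⟩ := key b hb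
    exact hbA hk hkA

/-- A centred family of subsets of `ℕ` with fewer than `𝔲` members is split by some set. -/
theorem exists_split {X : Type} (y : X → Set ℕ) (hX : #X < ultrafilterNumber)
    (hy : ∀ F : Set X, F.Finite → (⋂ x ∈ F, y x).Infinite) :
    ∃ A : Set ℕ, ∀ x, (y x ∩ A).Infinite ∧ (y x \ A).Infinite := by
  classical
  by_contra hcon
  have hcon' : ∀ A : Set ℕ, ∃ x, (y x ∩ A).Finite ∨ (y x \ A).Finite := by
    intro A
    by_contra h
    refine hcon ⟨A, fun x => ?_⟩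
    by_contra h'
    refine h ⟨x, ?_⟩
    rw [not_and_or, Set.not_infinite, Set.not_infinite] at h'
    exact h'
  obtain ⟨x0, -⟩ := hcon' ∅
  have h3 : ∀ x x' z : X, (y x ∩ y x' ∩ y z).Infinite := by
    intro x x' z
    have := hy {x, x', z} (by simp)
    refine this.mono ?_
    intro n hn
    simp only [mem_insert_iff, mem_singleton_iff, iInter_iInter_eq_or_left, iInter_iInter_eq_left,
      mem_inter_iff] at hn
    exact ⟨⟨hn.1, hn.2.1⟩, hn.2.2⟩
  have hdec : ∀ A : Set ℕ, (¬ ∃ x, (y x \ A).Finite) → ∃ x, (y x ∩ A).Finite := by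
    intro A h
    obtain ⟨x, h1 | h1⟩ := hcon' A
    · exact ⟨x, h1⟩
    · exact absurd ⟨x, h1⟩ h
  let p0 : Filter ℕ :=
    { sets := {A | ∃ x, (y x \ A).Finite}
      univ_sets := ⟨x0, by simp⟩
      sets_of_superset := by
        rintro A A' ⟨x, hx⟩ hA
        exact ⟨x, hx.subset (sdiff_subset_sdiff_right hA)⟩
      inter_sets := by
        rintro A A' ⟨x, hx⟩ ⟨x', hx'⟩
        by_contra h
        obtain ⟨z, hz⟩ := hdec (A ∩ A') h
        refine h3 x x' z (((hx.union hx').union hz).subset ?_)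
        rintro n ⟨⟨h1, h2⟩, h4⟩
        by_cases hA : n ∈ A
        · by_cases hA' : n ∈ A'
          · exact Or.inr ⟨h4, hA, hA'⟩
          · exact Or.inl (Or.inr ⟨h2, hA'⟩)
        · exact Or.inl (Or.inl ⟨h1, hA⟩) }
  have hp0 : ∀ A : Set ℕ, A ∈ p0 ↔ ∃ x, (y x \ A).Finite := fun A => Iff.rfl
  let p : Ultrafilter ℕ := Ultrafilter.ofComplNotMemIff p0 (by
    intro A
    constructor
    · intro h
      by_contra hA
      obtain ⟨x, hx⟩ := hdec A (fun h' => hA h')
      refine h ⟨x, ?_⟩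
      rwa [sdiff_compl]
    · rintro ⟨x, hx⟩ ⟨x', hx'⟩
      rw [sdiff_compl] at hx'
      refine h3 x x' x' ((hx.union hx').subset ?_)
      rintro n ⟨⟨h1, h2⟩, -⟩
      by_cases hA : n ∈ A
      · exact Or.inr ⟨h2, hA⟩
      · exact Or.inl ⟨h1, hA⟩)
  have hpm : ∀ A : Set ℕ, A ∈ p ↔ ∃ x, (y x \ A).Finite := fun A => Iff.rfl
  have hp : ∀ n : ℕ, p ≠ pure n := by
    intro n hn
    have h1 : ({n} : Set ℕ) ∈ p := by
      rw [hn]
      exact Ultrafilter.mem_pure.2 rfl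
    have h2 : ({n} : Set ℕ)ᶜ ∈ p := by
      refine (hpm _).2 ⟨x0, (Set.finite_singleton n).subset ?_⟩
      rintro m ⟨-, hm⟩
      simpa using hm
    exact (Ultrafilter.compl_mem_iff_notMem.1 h2) h1
  let B : Set (Set ℕ) := range fun q : X × ℕ => y q.1 \ Iio q.2
  have hB : IsBaseOf B p := by
    constructor
    · rintro _ ⟨⟨x, n⟩, rfl⟩
      refine (hpm _).2 ⟨x, (Set.finite_Iio n).subset ?_⟩
      rintro m ⟨h1, h2⟩
      by_contra h3
      exact h2 ⟨h1, h3⟩
    · rintro A hA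
      obtain ⟨x, hx⟩ := (hpm A).1 hA
      obtain ⟨n, hn⟩ := hx.bddAbove
      refine ⟨y x \ Iio (n + 1), ⟨(x, n + 1), rfl⟩, ?_⟩
      rintro m ⟨h1, h2⟩
      by_contra h3
      have := hn ⟨h1, h3⟩
      exact h2 (Nat.lt_succ_of_le this)
  have h5 : ultrafilterNumber ≤ #(X × ℕ) := (le_of_base hp hB).trans Cardinal.mk_range_le
  have h6 : #(X × ℕ) ≤ max #X ℵ₀ := by
    rw [Cardinal.mk_prod, Cardinal.lift_id, Cardinal.lift_id, Cardinal.mk_nat]
    exact (Cardinal.mul_le_max _ _).trans (by simp)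
  exact absurd (h5.trans h6) (not_le.2 (max_lt hX aleph0_lt_ultrafilterNumber))

/-- A set of reals with fewer than `𝔲` points satisfies `Split(Ω, Λ)`. -/
theorem split_of_lt {X : Set ℝ} (hX : #X < ultrafilterNumber) : SplitOmegaLambda X := by
  classical
  intro U hU
  obtain ⟨⟨hUo, hUc, hUX⟩, hUF⟩ := hU
  -- a countable `ω`-subcover
  let T := Finset (TopologicalSpace.countableBasis X)
  have hT : Countable T := inferInstance
  let P : T → Prop := fun t => ∃ u ∈ U, ∀ b ∈ t, (b : Set X) ⊆ u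
  let c : {t : T // P t} → Set X := fun t => t.2.choose
  have hcU : ∀ t, c t ∈ U := fun t => t.2.choose_spec.1
  have hcs : ∀ t : {t : T // P t}, ∀ b ∈ t.1, (b : Set X) ⊆ c t := fun t => t.2.choose_spec.2
  let U' : Set (Set X) := range c
  have hU'c : U'.Countable := countable_range c
  have hU'U : U' ⊆ U := by
    rintro _ ⟨t, rfl⟩
    exact hcU t
  have hU'F : ∀ F : Set X, F.Finite → ∃ u ∈ U', F ⊆ u := by
    intro F hF
    obtain ⟨u, hu, hFu⟩ := hUF F hF
    have h1 : ∀ x : X, ∃ b : TopologicalSpace.countableBasis X, x ∈ F → x ∈ (b : Set X) ∧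
        (b : Set X) ⊆ u := by
      intro x
      by_cases hx : x ∈ F
      · obtain ⟨b, hb, hxb, hbu⟩ :=
          (TopologicalSpace.isBasis_countableBasis X).exists_subset_of_mem_open (hFu hx) (hUo u hu)
        exact ⟨⟨b, hb⟩, fun _ => ⟨hxb, hbu⟩⟩
      · obtain ⟨b, hb, -⟩ :=
          (TopologicalSpace.isBasis_countableBasis X).exists_subset_of_mem_open (mem_univ x)
            isOpen_univ
        exact ⟨⟨b, hb⟩, fun h => absurd h hx⟩
    choose b hb using h1
    let t : T := hF.toFinset.image b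
    have ht : P t := by
      refine ⟨u, hu, fun b' hb' => ?_⟩
      obtain ⟨x, hx, rfl⟩ := Finset.mem_image.1 hb'
      exact (hb x (hF.mem_toFinset.1 hx)).2
    refine ⟨c ⟨t, ht⟩, mem_range_self _, fun x hx => ?_⟩
    exact hcs ⟨t, ht⟩ (b x) (Finset.mem_image_of_mem b (hF.mem_toFinset.2 hx)) (hb x hx).1
  have hinfF : ∀ F : Set X, F.Finite → {u | u ∈ U' ∧ F ⊆ u}.Infinite := by
    intro F hF hfin
    have h1 : ∀ u : Set X, ∃ z : X, u ∈ U' → z ∉ u := by
      intro u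
      by_cases hu : u ∈ U'
      · have : u ≠ univ := fun h => hUX (h ▸ hU'U hu)
        obtain ⟨z, hz⟩ := (ne_univ_iff_exists_notMem u).1 this
        exact ⟨z, fun _ => hz⟩
      · obtain ⟨u0, hu0, -⟩ := hU'F ∅ finite_empty
        have : u0 ≠ univ := fun h => hUX (h ▸ hU'U hu0)
        obtain ⟨z, -⟩ := (ne_univ_iff_exists_notMem u0).1 this
        exact ⟨z, fun h => absurd h hu⟩
    choose z hz using h1
    obtain ⟨u, hu, hFu⟩ := hU'F (F ∪ z '' {u | u ∈ U' ∧ F ⊆ u}) (hF.union (hfin.image z))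
    exact hz u hu (hFu (Or.inr ⟨u, ⟨hu, fun x hx => hFu (Or.inl hx)⟩, rfl⟩))
  have hU'inf : U'.Infinite := (hinfF ∅ finite_empty).mono fun u hu => hu.1
  have hcount : Countable U' := hU'c.to_subtype
  have hinf : Infinite U' := hU'inf.to_subtype
  obtain ⟨e⟩ : Nonempty (ℕ ≃ U') := by
    obtain ⟨hden⟩ := nonempty_denumerable U'
    exact ⟨(Denumerable.eqv U').symm⟩
  obtain ⟨A, hA⟩ := exists_split (X := X) (fun x => {n | x ∈ (e n : Set X)}) hX (by
    intro F hF hfin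
    refine hinfF F hF ((hfin.image fun n => (e n : Set X)).subset ?_)
    rintro u ⟨hu, hFu⟩
    refine ⟨e.symm ⟨u, hu⟩, ?_, by simp⟩
    simp only [mem_iInter, mem_ofPred_eq, Equiv.apply_symm_apply]
    exact fun x hx => hFu hx)
  have hinj : Function.Injective fun n => (e n : Set X) :=
    Subtype.val_injective.comp e.injective
  have hlarge : ∀ A' : Set ℕ, (∀ x : X, ({n | x ∈ (e n : Set X)} ∩ A').Infinite) →
      IsLargeCover X ((fun n => (e n : Set X)) '' A') := by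
    intro A' hA'
    have h1 : ∀ x : X, {u | u ∈ (fun n => (e n : Set X)) '' A' ∧ x ∈ u}.Infinite := by
      intro x
      refine ((hA' x).image hinj.injOn).mono ?_
      rintro _ ⟨n, ⟨hn1, hn2⟩, rfl⟩
      exact ⟨⟨n, hn2, rfl⟩, hn1⟩
    refine ⟨⟨?_, ?_, ?_⟩, h1⟩
    · rintro _ ⟨n, -, rfl⟩
      exact hUo _ (hU'U (e n).2)
    · rw [eq_univ_iff_forall]
      intro x
      obtain ⟨u, hu, hxu⟩ := (h1 x).nonempty
      exact ⟨u, hu, hxu⟩
    · rintro ⟨n, -, hn⟩
      exact hUX (hn ▸ hU'U (e n).2)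
  refine ⟨(fun n => (e n : Set X)) '' A, U \ ((fun n => (e n : Set X)) '' A), ?_, ?_,
    ⟨_, subset_rfl, hlarge A fun x => (hA x).1⟩,
    ⟨(fun n => (e n : Set X)) '' Aᶜ, ?_, hlarge Aᶜ fun x => by
      have := (hA x).2
      rwa [sdiff_eq] at this⟩⟩
  · apply union_sdiff_cancel
    rintro _ ⟨n, -, rfl⟩
    exact hU'U (e n).2
  · exact disjoint_sdiff_right
  · rintro _ ⟨n, hn, rfl⟩
    refine ⟨hU'U (e n).2, ?_⟩
    rintro ⟨m, hm, hmn⟩
    exact hn (hinj hmn ▸ hm)

/-- The embedding of the power set of `ℕ` into the reals. -/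
noncomputable def emb (A : Set ℕ) : ℝ := by
  classical
  exact (cantorSetHomeomorphNatToBool.symm fun n => decide (n ∈ A)).1

theorem emb_spec : ∃ s : ℝ → Set ℕ, (∀ A, s (emb A) = A) ∧
    ∀ X : Set ℝ, X ⊆ range emb → ∀ n, IsOpen {x : X | n ∈ s x} := by
  classical
  refine ⟨fun r => if h : r ∈ cantorSet then {n | cantorSetHomeomorphNatToBool ⟨r, h⟩ n = true}
    else ∅, ?_, ?_⟩
  · intro A
    have h : emb A ∈ cantorSet := (cantorSetHomeomorphNatToBool.symm _).2
    simp only [dif_pos h]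
    ext n
    have : (⟨emb A, h⟩ : cantorSet) =
      cantorSetHomeomorphNatToBool.symm fun n => decide (n ∈ A) := Subtype.ext rfl
    rw [mem_ofPred_eq, this, Homeomorph.apply_symm_apply]
    simp
  · intro X hX n
    have hXc : ∀ x : X, (x : ℝ) ∈ cantorSet := by
      intro x
      obtain ⟨A, hA⟩ := hX x.2
      rw [← hA]
      exact (cantorSetHomeomorphNatToBool.symm _).2
    have h1 : Continuous fun x : X => cantorSetHomeomorphNatToBool ⟨x, hXc x⟩ n :=
      (continuous_apply n).comp (cantorSetHomeomorphNatToBool.continuous.comp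
        (continuous_subtype_val.subtype_mk hXc))
    have h2 : {x : X | n ∈ (if h : (x : ℝ) ∈ cantorSet then
        {n | cantorSetHomeomorphNatToBool ⟨x, h⟩ n = true} else ∅)} =
        (fun x : X => cantorSetHomeomorphNatToBool ⟨x, hXc x⟩ n) ⁻¹' {true} := by
      ext x
      simp only [mem_ofPred_eq, dif_pos (hXc x), mem_preimage, mem_singleton_iff]
    rw [h2]
    exact (isOpen_discrete _).preimage h1

/-- The image in the reals of a base of a nonprincipal ultrafilter which is closed under removing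
initial segments does not satisfy `Split(Ω, Λ)`. -/
theorem not_split {p : Ultrafilter ℕ} {B : Set (Set ℕ)} (hp : ∀ n : ℕ, p ≠ pure n)
    (hB : IsBaseOf B p) (hBt : ∀ b ∈ B, ∀ n, b \ Iio n ∈ B) : ¬ SplitOmegaLambda (emb '' B) := by
  classical
  intro hS
  obtain ⟨s, hs, hso⟩ := emb_spec
  set X : Set ℝ := emb '' B with hXdef
  have hXr : X ⊆ range emb := image_subset_range _ _
  let O : ℕ → Set X := fun n => {x : X | n ∈ s x}
  have hsX : ∀ x : X, s x ∈ B := by
    rintro ⟨_, b, hb, rfl⟩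
    change s (emb b) ∈ B
    rw [hs]
    exact hb
  have hpt : ∀ b ∈ B, ∃ x : X, s x = b := fun b hb => ⟨⟨emb b, b, hb, rfl⟩, hs b⟩
  obtain ⟨b0, hb0, -⟩ := hB.2 univ Filter.univ_mem
  obtain ⟨x0, hx0⟩ := hpt b0 hb0
  obtain ⟨V, W, hVW, hdisj, ⟨V', hV', hVl⟩, W', hW', hWl⟩ :=
    hS {u | ∃ n, u = O n ∧ (O n).Nonempty} (by
      refine ⟨⟨?_, ?_, ?_⟩, ?_⟩
      · rintro _ ⟨n, rfl, -⟩
        exact hso X hXr n
      · rw [eq_univ_iff_forall]
        intro x
        obtain ⟨n, hn⟩ := (infinite_of_mem hp (hB.1 _ (hsX x))).nonempty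
        exact ⟨O n, ⟨n, rfl, x, hn⟩, hn⟩
      · rintro ⟨n, hn, -⟩
        obtain ⟨x, hx⟩ := hpt _ (hBt b0 hb0 (n + 1))
        have h1 : x ∈ O n := hn ▸ mem_univ x
        have h2 : n ∈ s x := h1
        rw [hx] at h2
        exact h2.2 (Nat.lt_succ_self n)
      · intro F hF
        have h1 : ⋂ x ∈ (hF.toFinset ∪ {x0}), s (x : X) ∈ (p : Filter ℕ) :=
          (Filter.biInter_finset_mem _).2 fun x _ => hB.1 _ (hsX x)
        obtain ⟨n, hn⟩ := (infinite_of_mem hp h1).nonempty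
        rw [mem_iInter₂] at hn
        refine ⟨O n, ⟨n, rfl, x0, ?_⟩, fun x hx => ?_⟩
        · exact hn x0 (Finset.mem_union_right _ (Finset.mem_singleton_self x0))
        · exact hn x (Finset.mem_union_left _ (hF.mem_toFinset.2 hx)))
  have hform : ∀ u, u ∈ V ∪ W → ∃ n, u = O n := by
    intro u hu
    rw [hVW] at hu
    obtain ⟨n, hn, -⟩ := hu
    exact ⟨n, hn⟩
  rcases Ultrafilter.mem_or_compl_mem p {n | O n ∈ V} with hA | hA
  · obtain ⟨b, hb, hbA⟩ := hB.2 _ hA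
    obtain ⟨x, hx⟩ := hpt b hb
    obtain ⟨w, hw, hxw⟩ := (hWl.2 x).nonempty
    obtain ⟨n, rfl⟩ := hform w (Or.inr (hW' hw))
    have hnb : n ∈ b := by
      rw [← hx]
      exact hxw
    exact (Set.disjoint_left.1 hdisj (hbA hnb)) (hW' hw)
  · obtain ⟨b, hb, hbA⟩ := hB.2 _ hA
    obtain ⟨x, hx⟩ := hpt b hb
    obtain ⟨w, hw, hxw⟩ := (hVl.2 x).nonempty
    obtain ⟨n, rfl⟩ := hform w (Or.inl (hV' hw))
    have hnb : n ∈ b := by
      rw [← hx]
      exact hxw
    exact hbA hnb (hV' hw)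

theorem isBaseOf_tails {p : Ultrafilter ℕ} {B : Set (Set ℕ)} (hp : ∀ n : ℕ, p ≠ pure n)
    (hB : IsBaseOf B p) : IsBaseOf (⋃ b ∈ B, range fun n => b \ Iio n) p := by
  constructor
  · intro c hc
    obtain ⟨b, hb, n, rfl⟩ := mem_iUnion₂.1 hc
    exact tail_mem hp (hB.1 b hb) n
  · intro A hA
    obtain ⟨b, hb, hbA⟩ := hB.2 A hA
    exact ⟨b \ Iio 0, mem_iUnion₂.2 ⟨b, hb, 0, rfl⟩, fun x hx => hbA hx.1⟩

/-- `𝔲 ≤ 𝔠`. -/
theorem ultrafilterNumber_le_continuum : ultrafilterNumber ≤ 𝔠 := by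
  obtain ⟨p, B, -, -, hBc⟩ := exists_base
  rw [← hBc, ← Cardinal.two_power_aleph0, ← Cardinal.mk_nat, ← Cardinal.mk_set]
  exact Cardinal.mk_set_le B

/-- **`add(Split(Ω, Λ)) ≤ cf 𝔲`.** The additivity number of the family of all sets of reals which
satisfy `Split(Ω, Λ)` is at most the cofinality of the ultrafilter number `𝔲`; in particular it is
at most `𝔲`, which is at most `𝔠`. -/
theorem result : addS ≤ ultrafilterNumber.ord.cof ∧
    ultrafilterNumber.ord.cof ≤ ultrafilterNumber ∧ ultrafilterNumber ≤ 𝔠 := by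
  classical
  refine ⟨?_, Ordinal.cof_ord_le _, ultrafilterNumber_le_continuum⟩
  obtain ⟨p, B, hp, hB, hBc⟩ := exists_base
  obtain ⟨J, hJ, hJc⟩ := Order.exists_cof_eq ultrafilterNumber.ord.ToType
  rw [Ordinal.cof_toType] at hJc
  -- an enumeration of `B` by `𝔲.ord`
  have hcard : #(ultrafilterNumber.ord.ToType) = #B := by rw [Cardinal.mk_ord_toType, hBc]
  obtain ⟨e⟩ := Cardinal.eq.1 hcard
  let Bi : ultrafilterNumber.ord.ToType → Set (Set ℕ) := fun j =>
    ⋃ i ∈ Iic j, range fun n => (e i : Set ℕ) \ Iio n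
  have hBi : ∀ j, #(emb '' Bi j) < ultrafilterNumber := by
    intro j
    have h1 : #(Iic j) < ultrafilterNumber := by
      have h2 : #(Iio j) < ultrafilterNumber := Cardinal.mk_Iio_toType_ord_lt j
      have h3 : Iic j = insert j (Iio j) := by
        ext x
        simp [le_iff_eq_or_lt]
      rw [h3]
      refine (Cardinal.mk_insert_le).trans_lt ?_
      exact Cardinal.add_lt_of_lt aleph0_lt_ultrafilterNumber.le h2
        (Cardinal.one_lt_aleph0.trans aleph0_lt_ultrafilterNumber)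
    have h4 : Bi j ⊆ range fun q : Iic j × ℕ => (e q.1 : Set ℕ) \ Iio q.2 := by
      intro c hc
      obtain ⟨i, hi, n, rfl⟩ := mem_iUnion₂.1 hc
      exact ⟨(⟨i, hi⟩, n), rfl⟩
    have h5 : #(Bi j) ≤ #(Iic j × ℕ) := (Cardinal.mk_le_mk_of_subset h4).trans Cardinal.mk_range_le
    have h6 : #(Iic j × ℕ) ≤ max #(Iic j) ℵ₀ := by
      rw [Cardinal.mk_prod, Cardinal.lift_id, Cardinal.lift_id, Cardinal.mk_nat]
      exact (Cardinal.mul_le_max _ _).trans (by simp)
    exact (Cardinal.mk_image_le.trans (h5.trans h6)).trans_lt (max_lt h1 aleph0_lt_ultrafilterNumber)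
  let F : Set (Set ℝ) := range fun j : J => emb '' Bi j
  have hF : ⋃₀ F = emb '' (⋃ b ∈ B, range fun n => b \ Iio n) := by
    ext r
    constructor
    · rintro ⟨_, ⟨j, rfl⟩, c, hc, rfl⟩
      obtain ⟨i, hi, n, rfl⟩ := mem_iUnion₂.1 hc
      exact ⟨_, mem_iUnion₂.2 ⟨e i, (e i).2, n, rfl⟩, rfl⟩
    · rintro ⟨c, hc, rfl⟩
      obtain ⟨b, hb, n, rfl⟩ := mem_iUnion₂.1 hc
      obtain ⟨j, hj, hij⟩ := hJ (e.symm ⟨b, hb⟩)
      refine ⟨_, ⟨⟨j, hj⟩, rfl⟩, _, mem_iUnion₂.2 ⟨e.symm ⟨b, hb⟩, hij, n, rfl⟩, ?_⟩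
      simp
  have h1 : addS ≤ #F := by
    refine csInf_le' ⟨F, ?_, ?_, rfl⟩
    · rintro _ ⟨j, rfl⟩
      exact split_of_lt (hBi j)
    · rw [hF]
      refine not_split hp (isBaseOf_tails hp hB) ?_
      intro c hc n
      obtain ⟨b, hb, m, rfl⟩ := mem_iUnion₂.1 hc
      refine mem_iUnion₂.2 ⟨b, hb, max m n, ?_⟩
      ext k
      simp only [mem_sdiff, mem_Iio, not_lt, max_le_iff, and_assoc]
  exact h1.trans (Cardinal.mk_range_le.trans hJc.le)

end Pool.Agent.Results.MP_312f56_gt.AddLeCofU
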